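import Pool.Agent.U194.TS.Thin
import Pool.Agent.Results.MP_a59382_lc.AlmostAllIntegers

/-!
# Existential formulas which imply the pole relation fail at ALL integers given by Diophantine approximations of almost all points

The pole relation `R_K(a, b)` of the problem holds for all rational integers `a` and all `b ∈ K`. The starting result
`AlmostAllIntegers` of this page shows that the formulas of several kinds (finite disjunctions, with parameters in `K`) which imply the
pole relation for some `b` fail at almost all terms of the sequences of integers which are equidistributed modulo all integers, outside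
of a set of density zero of the indices.

Here the integers are given by the approximations of a point. Let `α ∈ ℝ ^ d` and consider all its approximations
`(q, u_1, …, u_d)` with `|q α_i - γ_i - u_i| ≤ q ^ (-τ)`; for `d = 1`, `γ = 0`, `τ = 1` these contain the denominators and numerators
of all the convergents of the continued fraction of `α`, for `τ = 1 / d` all the best simultaneous approximations, and for larger `τ` the
very good approximations of the very well approximable `α`, which form a set of dimension `s = (d + 1) / (1 + τ) < d` and of infinite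
Hausdorff measure in this dimension (Jarník). These integers have density zero, and they are not equidistributed. We show that for all
`α` outside of a set of Hausdorff measure ZERO in the dimension `s` the following holds for ALL integers `k ≠ 0` at a distance of at most
`(log q) ^ W` from `g_0 + g q + h_1 u_1 + ⋯ + h_d u_d`, for every integral affine form with `(g, h) ≠ 0` and all these approximations with
large `q`:

(a) `k` is not in `D`, for all number fields `K` and all thin sets `D ⊆ K`;

(b) `Φ(k, b)` fails (although the pole relation holds for `k` and `b`), for all number fields `K`, all rich sets `Q` of primes, all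
`b ∈ K` and all formulas `Φ` of the kinds of `AlmostAllIntegers` such that `Φ(a, b)` implies the pole relation for all `a`;

(c) the same over `ℚ` for the disjunctions with quadratic equations of rank at least five.

Proof. The new ingredient is a bound `X / (log X) ^ U`, for all `U`, for the number of the integers `|k| ≤ X` in a thin set
(`U194/TS`). For this the sieve of Turán is used with the product of a large number of irreducible polynomials: the primes modulo which
an irreducible polynomial in two variables of degree at least two in the second has fibres without roots have positive lower density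
(`N455/HT`), and the sum of the densities of the products of `U + 2` of these primes is bounded from below. The integral vectors
`(q, u)` with `q ≈ X` and a value of the form near an exceptional number are counted, and the sets of the `α` approximated by them are
used as the covers in the definition of the Hausdorff measure (`U513/AP`).
-/

set_option autoImplicit false

open Filter MeasureTheory

namespace Pool.Agent.Results.MP_a59382_lc.Approximations

open Pool.Agent.TH766.HP Pool.Agent.TH783.CE
open Pool.Agent.Results.MP_a59382_lc.CubicEquations (PoleRel)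
open Pool.Agent.Results.MP_a59382_lc.AlmostAllIntegers (Formula Forms)
open Pool.Agent.R565.QR (Solvable)

/-- `(q, u)` is an approximation of `α` of exponent `τ` and shift `γ`: `|q α_i - γ_i - u_i| ≤ q ^ (-τ)` for all `i`. -/
def Approx {d : ℕ} (τ : ℝ) (γ α : Fin d → ℝ) (q : ℕ) (u : Fin d → ℤ) : Prop :=
  ∀ i, |(q : ℝ) * α i - γ i - u i| ≤ (q : ℝ) ^ (-τ)

/-- All the integers `k ≠ 0` within `(log q) ^ W` of the values of the integral affine forms `g₀ + g q + ∑ h_i u_i`, `(g, h) ≠ 0`, at
all the approximations `(q, u)` of `α` of exponent `τ` and shift `γ` with large `q` have the property `G`, for every `W`. -/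
def Near {d : ℕ} (τ : ℝ) (γ α : Fin d → ℝ) (G : ℤ → Prop) : Prop :=
  ∀ (W : ℕ) (g₀ g : ℤ) (h : Fin d → ℤ), ¬ (g = 0 ∧ h = 0) → ∀ᶠ q : ℕ in atTop, ∀ u : Fin d → ℤ, Approx τ γ α q u →
    ∀ k : ℤ, k ≠ 0 → |(k : ℝ) - (g₀ + g * q + ∑ i, h i * u i : ℤ)| ≤ Real.log q ^ W → G k

/-- **Formulas which imply the pole relation fail at all integers near the approximations of almost all points.** -/
theorem result :
    (∀ (d : ℕ) (τ : ℝ) (γ : Fin d → ℝ), 0 ≤ τ →
      ∃ E : Set (Fin d → ℝ), μH[((d : ℝ) + 1) / (1 + τ)] E = 0 ∧ (1 ≤ d * τ → volume E = 0) ∧
        ∀ α, α ∉ E →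
        -- thin sets
        (∀ (K : Type) [Field K] [NumberField K] (D : Set K), Thin D → Near τ γ α fun k => (k : K) ∉ D) ∧
        -- formulas over number fields
        (∀ (K : Type) [Field K] [NumberField K] (Q : Set ℕ), Rich Q →
          ∀ (Φ : Formula K) (b : K), Φ.AdmissibleAt b → Φ.SoundAt Q b → Near τ γ α fun k => ¬ Φ.Holds (k : K) b) ∧
        -- formulas over the rational numbers
        (∀ Q : Set ℕ, Rich Q → ∀ (Φ : Formula ℚ) (Ψ : Forms) (b : ℚ),
          Φ.AdmissibleAt b → Ψ.RankFiveAt b →
          (∀ a : ℚ, (Φ.Holds a b ∨ Ψ.Holds a b) → PoleRel ℚ Q a b) →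
            Near τ γ α fun k => ¬ (Φ.Holds (k : ℚ) b ∨ Ψ.Holds (k : ℚ) b))) ∧
    -- the pole relation holds at all integers
    (∀ (K : Type) [Field K] [NumberField K] (Q : Set ℕ) (k : ℤ) (b : K), PoleRel K Q (k : K) b) ∧
    -- the primes `1` modulo `4`
    Rich {p | p % 4 = 1} := by
  refine ⟨?_, fun K _ _ Q k b => Pool.Agent.N455.PR.poleRel_int Q k b, four⟩
  intro d τ γ hτ
  obtain ⟨E, e1, e2, e3⟩ := Pool.Agent.U194.TS.near_thin hτ γ
  have hthin : ∀ α, α ∉ E → ∀ (K : Type) [Field K] [NumberField K] (D : Set K), Thin D →
      Near τ γ α fun k => (k : K) ∉ D := by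
    intro α hα K _ _ D hD W g₀ g h hgh
    filter_upwards [e3 α hα K D hD W g₀ g h hgh] with q hq u hu k hk hle
    exact hq u hu k hk hle
  have key : ∀ (K : Type) [Field K] [NumberField K] (Q : Set ℕ), Rich Q →
      ∀ (Φ : Formula K) (b : K), Φ.AdmissibleAt b → Φ.SoundAt Q b → Thin {a | Φ.Holds a b} := by
    intro K _ _ Q hQ Φ b hΦ hs
    exact Pool.Agent.N455.PR.thin_main hQ hΦ.1.1 hΦ.1.2 b hΦ.2.1 hΦ.2.2 hs
  refine ⟨E, e1, e2, fun α hα => ⟨hthin α hα, ?_, ?_⟩⟩
  · intro K _ _ Q hQ Φ b hΦ hs
    exact hthin α hα K _ (key K Q hQ Φ b hΦ hs)
  · intro Q hQ Φ Ψ b hΦ hΨ hs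
    have h1 := key ℚ Q hQ Φ b hΦ fun a ha => hs a (Or.inl ha)
    have h2 : {a | Ψ.Holds a b}.Finite := by
      have : {a | Ψ.Holds a b} = ⋃ i, {a | Solvable (Ψ.A i) a b} := by
        ext a
        simp [Forms.Holds]
      rw [this]
      exact Set.finite_iUnion fun i => Pool.Agent.N455.PR.fin_rank5 hQ (hΨ i).1 b (hΨ i).2
        fun a ha => hs a (Or.inr ⟨i, ha⟩)
    exact hthin α hα ℚ _ (h1.union (Thin.of_finite h2))

end Pool.Agent.Results.MP_a59382_lc.Approximations
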