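import Pool.Agent.Results.MP_a59382_lc.AlmostAllIntegers
import Pool.Agent.U569.APL.Thin

/-!
# MP_a59382_lc: existential formulas which imply the pole relation fail at almost all integers formed from arbitrary sets

Let `K` be a number field and let `Q` be a rich set of rational primes, for example the primes `p = 1 mod 4`. The relation
`R_K(a, b)` of the problem holds for all rational integers `a` and all `b ∈ K`. The admissible formulas are those of the
starting result `AlmostAllIntegers`: finite disjunctions of the formulas of the starting results `CubicEquations`,
`QuadraticFamilies`, `QuarticDoubleCovers`, `UnirationalFibres`, and of existential formulas with an arbitrary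
quantifier-free part and at most one quantifier or with witnesses which are algebraic over `K(a)`; over the rational numbers
also quadratic equations of rank at least five. It is shown there that an admissible formula which implies the pole
relation for one `b` fails at almost all terms of every sequence of integers `v_n` in `(N, 2N]` which is equidistributed modulo
all integers.

Here the integers are in sets without such a structure. Let a sequence (`j = 0, 1, 2, …`) of families of vectors of `R`
integers be given. The vectors of the `j`-th family are `c₀ + y`, `c₀` an arbitrary integral vector (depending on `j`, of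
any size) and `y` one of the following vectors (represented by `0, …, q - 1`):

* `y` in any family of vectors modulo some `q` (depending on `j`), whose nontrivial Fourier coefficients are at most
  `1 / (Z (42 + 3 log q) ^ R)`, where `Z → ∞`, `Z ≤ q`;
* `β(x, z) + u(x) + w(z)` modulo a prime `P → ∞`, where `β : k ^ m × k ^ n → k ^ R` is bilinear, the nontrivial
  combinations of its coordinates have rank at least `ρ`, `x` and `z` are in ARBITRARY sets `E` and `F` with
  `|E| |F| ≥ P ^ (m + n - ρ + δ)`, `u` and `w` are arbitrary functions (for `δ > 0` fixed); for example, `R = 1`, the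
  products `x z` modulo `P` of the residues of two ARBITRARY sets with `|E| |F| ≥ P ^ (1 + δ)`;
* the same for `β(x, z) = x z`, `x` and `z` in ARBITRARY subsets of the field of `P ^ R` elements,
  `|E| |F| ≥ P ^ (R + δ)`;
* polynomials in several variables of degree at most `P ^ (δ / 4)`, all nontrivial combinations of which have a monomial
  with at least two variables, plus arbitrary functions of the single variables, on products of ARBITRARY sets of at
  least `P ^ (1 / 2 + δ)` residues;
* polynomials in one variable of degree at most `P ^ (δ / 4)`, no nontrivial combination of which is constant, on any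
  subgroup of the multiplicative group modulo `P` with at least `P ^ (1 / 2 + δ)` elements.

**Theorem.** There are exceptions `B j`, `|B j| = o(size)`, such that for the vectors `c` of the `j`-th family outside of
`B j`, all coordinates `c_l` and all large `j`:

(1) `c_l` is not in `D`, for ALL number fields `K` and all thin subsets `D` of `K` (one set of exceptions for all of them;
only the size of `j` depends on `K` and `D`);

(2) `Φ(c_l, b)` fails, for ALL number fields `K`, all rich sets `Q` of primes, all `b ∈ K` and all admissible formulas `Φ`
such that `Φ(a, b)` implies the pole relation for all `a ∈ K`, although the pole relation holds for `c_l` and `b`; for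
`K = ℚ` also for disjunctions with quadratic equations of rank at least five.

Proof. `flat_of_ws` of `U569/APL/Thin` transfers Hilbert's irreducibility theorem along well distributed sequences
(`N455.HT`, `N384.VF`) to the families; the estimates of the Fourier coefficients on arbitrary sets are in `U569/APL`.
-/

set_option autoImplicit false

namespace Pool.Agent.Results.MP_a59382_lc.ArbitrarySets

open Filter
open Pool.Agent.TH766.HP Pool.Agent.TH783.CE
open Pool.Agent.Results.MP_a59382_lc.CubicEquations (PoleRel)
open Pool.Agent.Results.MP_a59382_lc.AlmostAllIntegers (Formula Forms)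
open Pool.Agent.R565.QR (Solvable)
open Pool.Agent.U569.APL

/-- **Formulas which imply the pole relation fail at almost all integers formed from arbitrary sets.** -/
theorem result (ι : Type) [Fintype ι] [DecidableEq ι] :
    (∀ (τ : ℕ → Type) (s : ∀ j, Finset (τ j)) (v : ∀ j, τ j → ι → ℤ), FlatFamilies s v →
      ∃ B : ∀ j, Finset (τ j), Small s B ∧
        -- thin sets
        (∀ (l : ι) (K : Type) [Field K] [NumberField K] (D : Set K), Thin D →
          Outside s B v fun c => ((c l : ℤ) : K) ∉ D) ∧
        -- formulas over number fields
        (∀ (l : ι) (K : Type) [Field K] [NumberField K] (Q : Set ℕ), Rich Q →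
          ∀ (Φ : Formula K) (b : K), Φ.AdmissibleAt b → Φ.SoundAt Q b →
            Outside s B v fun c => ¬ Φ.Holds ((c l : ℤ) : K) b) ∧
        -- formulas over the rational numbers
        (∀ (l : ι) (Q : Set ℕ), Rich Q → ∀ (Φ : Formula ℚ) (Ψ : Forms) (b : ℚ),
          Φ.AdmissibleAt b → Ψ.RankFiveAt b →
          (∀ a : ℚ, (Φ.Holds a b ∨ Ψ.Holds a b) → PoleRel ℚ Q a b) →
            Outside s B v fun c => ¬ (Φ.Holds ((c l : ℤ) : ℚ) b ∨ Ψ.Holds ((c l : ℤ) : ℚ) b))) ∧
    -- the pole relation holds at all integers
    (∀ (K : Type) [Field K] [NumberField K] (Q : Set ℕ) (m : ℤ) (b : K), PoleRel K Q (m : K) b) ∧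
    -- the primes `1` modulo `4`
    Rich {p | p % 4 = 1} ∧
    Examples ι := by
  refine ⟨fun τ s v hs => ?_, fun K _ _ Q m b => Pool.Agent.N455.PR.poleRel_int Q m b, four, examples _⟩
  obtain ⟨B, hB, hE⟩ := flat_thin hs
  have key : ∀ (K : Type) [Field K] [NumberField K] (Q : Set ℕ), Rich Q →
      ∀ (Φ : Formula K) (b : K), Φ.AdmissibleAt b → Φ.SoundAt Q b → Thin {a | Φ.Holds a b} := by
    intro K _ _ Q hQ Φ b hΦ hs
    exact Pool.Agent.N455.PR.thin_main hQ hΦ.1.1 hΦ.1.2 b hΦ.2.1 hΦ.2.2 hs
  refine ⟨B, hB, hE, ?_, ?_⟩
  · intro l K _ _ Q hQ Φ b hΦ hs
    exact hE l K _ (key K Q hQ Φ b hΦ hs)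
  · intro l Q hQ Φ Ψ b hΦ hΨ hs
    have h1 := key ℚ Q hQ Φ b hΦ fun a ha => hs a (Or.inl ha)
    have h2 : {a | Ψ.Holds a b}.Finite := by
      have : {a | Ψ.Holds a b} = ⋃ i, {a | Solvable (Ψ.A i) a b} := by
        ext a
        simp [Forms.Holds]
      rw [this]
      exact Set.finite_iUnion fun i => Pool.Agent.N455.PR.fin_rank5 hQ (hΨ i).1 b (hΨ i).2
        fun a ha => hs a (Or.inr ⟨i, ha⟩)
    exact hE l ℚ _ (h1.union (Thin.of_finite h2))

end Pool.Agent.Results.MP_a59382_lc.ArbitrarySets
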