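import Pool.Agent.U84.PR.Main

/-!
# Pole relations over `ℚ` are existentially definable from dense sets of integers

For a set `𝒬` of prime numbers `PoleRel 𝒬 a b` is the relation of the problem over `K = ℚ` for the
primes in `𝒬`: at every prime of `𝒬` at which `a` has a pole, `b` has a pole. The problem is the
case of the primes `≡ 1` modulo `4`. `DefinesRel 𝒟 R`: one existential formula defines the relation
`R` in the ring `ℚ` with a predicate for the set `D`, for all sets `D` of the class `𝒟`.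

Proof: the integers are defined by such a formula (`DenseSets`, a theorem on the problem
`MP_28f2cb_lc`), the denominator by Bezout's identity and the relation between denominators by
bounded quantification (the theorem of Davis, Putnam, Robinson and Matiyasevich).
-/

set_option autoImplicit false

namespace Pool.Agent.Results.MP_a59382_lc.DenseSetsDefinePoles

open Pool.Agent.U84.DD Pool.Agent.U84.PR

/-- 1. If a set `D` of a class with `DefinesRel 𝒟 R` is existentially definable in `ℚ`, then so is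
`R`. 2. Dense sets of integers. 3. Dense sets of quasi-integers. 4. The primes of a residue class
satisfy the condition on `𝒬`. -/
theorem result :
    (∀ (𝒟 : Set ℚ → Prop) (R : ℚ → ℚ → Prop), DefinesRel 𝒟 R → ∀ D : Set ℚ, 𝒟 D → Dio D →
      DioRel R) ∧
    (∀ P : Polynomial ℚ, 0 < P.natDegree → ∀ η : ℝ, 0 < η →
      ∀ 𝒬 : Set ℕ, REPred (fun n => n ∉ 𝒬) →
      DefinesRel (fun D => Integral D ∧ (DenseValues P η D ∨ DensePrimes η D)) (PoleRel 𝒬)) ∧
    (∀ P : Polynomial ℚ, 0 < P.natDegree → ∀ (η A δ : ℝ) (N₀ : ℕ), 0 < η → δ < 1 / 2 →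
      ∀ 𝒬 : Set ℕ, REPred (fun n => n ∉ 𝒬) →
      DefinesRel (fun D => DenLe A δ D ∧ (LowerValues P η N₀ D ∨ LowerPrimes η N₀ D))
        (PoleRel 𝒬)) ∧
    (∀ r m : ℕ, REPred (fun n => n ∉ {p : ℕ | p % m = r})) := by
  have hint : ∀ A δ : ℝ, δ < 1 / 2 → Pool.Agent.TH255.QI.DT (Pool.Agent.TH255.QI.Qu A δ)
      (fun _ v => ∃ z : ℤ, v 0 = z) := fun A δ hδ => Pool.Agent.TH255.QI.dt_int hδ
  exact ⟨fun 𝒟 R h D hD h1 => dioRel_of h hD h1,
    fun P hP η hη 𝒬 h𝒬 => final2 (dt_pole (ints_all P hP η hη) h𝒬),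
    fun P hP η A δ N₀ hη hδ 𝒬 h𝒬 => final2 (dt_pole
      (quasi_all (by norm_num) hint hδ P hP η hη N₀) h𝒬), re_compl_mod⟩

end Pool.Agent.Results.MP_a59382_lc.DenseSetsDefinePoles
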