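import Pool.Agent.U610.PC.FinM
import Pool.Agent.U610.PC.T_MAINCb
import Pool.Agent.U94.PC.T_UNI
import Pool.Agent.U312.PC.T_RES
import Pool.Agent.U943.PC.T_FACT
import Pool.Agent.U869.PC.T_LOCF
import Pool.Agent.U678.PC.T_ANI
import Pool.Agent.U467.PC.T_HM
import Pool.Agent.U667.PC.T_HMN
import Pool.Agent.U129.PC.T_CLO
import Pool.Agent.U803.PC.T_INF
import Pool.Agent.U55.PC.T_APT
import Pool.Agent.U285.PC.T_RK2
import Pool.Agent.U603.PC.T_DIAG
import Pool.Agent.U416.PC.T_CHEB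
import Pool.Agent.U452.PC.T_OBS
import Pool.Agent.U504.PC.T_DICH
import Pool.Agent.U780.PC.T_PERTC
import Pool.Agent.Results.MP_a59382_lc.AlmostAllIntegers

/-!
# The pole relation over `ℚ`: algebraic witnesses and quadratic quantifiers

We consider existential formulas in `a` and `b` of the form

  `∃ w ∈ ℚ ^ c, θ(a, b, w) ∧ ∃ z₁, F₁(a, b, w, z₁) = 0 ∧ … ∧ ∃ z_e, F_e(a, b, w, z_e) = 0`,

where `θ` is an arbitrary quantifier-free formula in the language of rings with parameters in `ℚ`, the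
witnesses `w` are algebraic over `ℚ(a)` (they satisfy equations `G(a, w_l) = 0`), any number of them,
and the `F_j` are polynomials of degree at most two in the variables `z_j = (z_j1, …, z_jt)`, any number
of them, and of arbitrary degree in `a, b` and `w`: conics, quadric surfaces and quadrics of every rank,
also degenerate ones, over curves over the `a`-line. The relations studied here are the finite
disjunctions `Ψ` of such formulas, and disjunctions `Φ ∨ Ψ` with a formula `Φ` of the starting result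
`AlmostAllIntegers`.

(1) `R_ℚ` is not such a relation.

(2) Let `Q` be a rich set of primes, for example the primes `1 mod 4`, and let `b ∈ ℚ` (with or without
poles above `Q`). If such a relation implies the pole relation for `b` and all `a` then there are an
arithmetic progression and a thin set `Z` such that the relation fails for all integers of the
progression which are not in `Z`, although the pole relation holds for all integers.

(3) In particular it fails for arbitrarily large integers.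

The starting result `HassePrincipleFamilies` excludes Boolean combinations of projective families over
the plane which satisfy the Hasse principle; with the theorem of Hasse and Minkowski this covers the
formulas without witnesses `w` (`c = 0`), but no finite covers of the `a`-line and no disjunctions with
`Φ`. The starting results `RankFive` and `AlmostAllIntegers` cover quadratic equations of rank at least
five, and witnesses `w` without quadratic quantifiers.

The proof. Off a thin set the witnesses `w` are rational functions of `a`, so we have conjunctions of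
quadratic equations over the `a`-line. A diagonal form in at least three variables with entries in
`ℚ[X]` is either isotropic over `ℚ_p` at all `p`-adic integers, for all large primes `p`, or, by the
density theorem of Chebotarev, there are arbitrarily large primes `p` and classes modulo `p²` at which
it is anisotropic over `ℚ_p`. The forms of the second kind are excluded by a congruence. If the forms
of a conjunction are of the first kind and are isotropic at one rational number `a` then they are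
isotropic, by the theorem of Hasse and Minkowski, at rational numbers `a + M ^ k / p ^ e` with a pole
at a prime `p` of `Q`.
-/

set_option autoImplicit false

namespace Pool.Agent.Results.MP_a59382_lc.QuadraticWitnesses

open MvPolynomial Pool.Agent.TH766.HP Pool.Agent.TH783.CE
open Pool.Agent.Results.MP_a59382_lc.CubicEquations (PoleRel)
open Pool.Agent.Results.MP_a59382_lc.AlmostAllIntegers (Formula)

/-- The data of a disjunction of `s` formulas `∃ w, θ(a, b, w) ∧ ⋀_j ∃ z_j, F_j(a, b, w, z_j) = 0`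
with parameters in `ℚ`, where `θ` is a Boolean function `B` of `r` polynomial equations. -/
structure Quadratic where
  /-- the number of the formulas -/
  s : ℕ
  /-- the numbers of the witnesses `w` -/
  c : Fin s → ℕ
  /-- the numbers of the equations in `θ` -/
  r : Fin s → ℕ
  /-- the polynomials in `θ` -/
  f : ∀ i, Fin (r i) → MvPolynomial (Fin 2 ⊕ Fin (c i)) ℚ
  /-- the Boolean functions -/
  B : ∀ i, (Fin (r i) → Prop) → Prop
  /-- the numbers of the quadratic equations -/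
  e : Fin s → ℕ
  /-- the numbers of their variables `z` -/
  t : ∀ i, Fin (e i) → ℕ
  /-- the quadratic polynomials -/
  F : ∀ i (j : Fin (e i)), MvPolynomial (Fin 2 ⊕ (Fin (c i) ⊕ Fin (t i j))) ℚ

/-- The witness `w` satisfies the `i`-th formula: `θ(a, b, w)` holds and each equation
`F_j(a, b, w, z) = 0` has a solution `z ∈ ℚ ^ t`. -/
def Quadratic.Witness (Ψ : Quadratic) (i : Fin Ψ.s) (a b : ℚ) (w : Fin (Ψ.c i) → ℚ) : Prop :=
  Ψ.B i (fun j => eval (Sum.elim ![a, b] w) (Ψ.f i j) = 0) ∧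
    ∀ j, ∃ z : Fin (Ψ.t i j) → ℚ, eval (Sum.elim ![a, b] (Sum.elim w z)) (Ψ.F i j) = 0

/-- One of the formulas holds for `a` and `b`. -/
def Quadratic.Holds (Ψ : Quadratic) (a b : ℚ) : Prop := ∃ i w, Ψ.Witness i a b w

/-- The polynomials `F` have degree at most two in `z`, and for this `b` all witnesses are algebraic
over `ℚ(a)`: there are polynomials `G ≠ 0` in two variables with `G(a, w_l) = 0` for all `a` and all
witnesses `w`. -/
def Quadratic.AdmissibleAt (Ψ : Quadratic) (b : ℚ) : Prop :=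
  (∀ i j, ∀ m ∈ (Ψ.F i j).support, ∑ l, m (Sum.inr (Sum.inr l)) ≤ 2) ∧
    ∀ i, ∀ l : Fin (Ψ.c i), ∃ G : Polynomial (Polynomial ℚ), G ≠ 0 ∧
      ∀ (a : ℚ) (w : Fin (Ψ.c i) → ℚ), Ψ.Witness i a b w → G.evalEval a (w l) = 0

theorem result :
    -- (1) the relation `R_ℚ` is not such a relation
    (∀ (Φ : Formula ℚ) (Ψ : Quadratic), (∃ b, Φ.AdmissibleAt b ∧ Ψ.AdmissibleAt b) →
      ¬ ∀ a b : ℚ, (Φ.Holds a b ∨ Ψ.Holds a b) ↔ PoleRel ℚ {p | p % 4 = 1} a b) ∧
    -- (2) the general form, for every rich set of primes and every `b`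
    (∀ Q : Set ℕ, Rich Q → ∀ (Φ : Formula ℚ) (Ψ : Quadratic) (b : ℚ),
      Φ.AdmissibleAt b → Ψ.AdmissibleAt b →
      (∀ a : ℚ, (Φ.Holds a b ∨ Ψ.Holds a b) → PoleRel ℚ Q a b) →
      ∃ (M : ℕ) (a₀ : ℤ) (Z : Set ℚ), 0 < M ∧ Thin Z ∧ ∀ u : ℤ, (M : ℤ) ∣ u - a₀ → (u : ℚ) ∉ Z →
        PoleRel ℚ Q (u : ℚ) b ∧ ¬ (Φ.Holds (u : ℚ) b ∨ Ψ.Holds (u : ℚ) b)) ∧
    -- (3) arbitrarily large integers
    (∀ Q : Set ℕ, Rich Q → ∀ (Φ : Formula ℚ) (Ψ : Quadratic) (b : ℚ),
      Φ.AdmissibleAt b → Ψ.AdmissibleAt b →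
      (∀ a : ℚ, (Φ.Holds a b ∨ Ψ.Holds a b) → PoleRel ℚ Q a b) →
      ∀ B : ℤ, ∃ u : ℤ, B < u ∧
        PoleRel ℚ Q (u : ℚ) b ∧ ¬ (Φ.Holds (u : ℚ) b ∨ Ψ.Holds (u : ℚ) b)) ∧
    -- (4) the primes `1` modulo `4`
    Rich {p | p % 4 = 1} := by
  have hRES := Pool.Agent.U312.PC.t_RES
  have hUNI := Pool.Agent.U94.PC.t_UNI
  have hLOCF := Pool.Agent.U869.PC.t_LOCF hRES hUNI
  have hOBS := Pool.Agent.U452.PC.t_OBS Pool.Agent.U416.PC.t_CHEB hRES Pool.Agent.U610.PC.t_ANI
  have hDICH := Pool.Agent.U504.PC.t_DICH hRES Pool.Agent.U943.PC.t_FACT hUNI hLOCF hOBS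
  have hHMN := Pool.Agent.U667.PC.t_HMN Pool.Agent.U467.PC.t_HM
  have hPERTC := Pool.Agent.U780.PC.t_PERTC hHMN Pool.Agent.U129.PC.t_CLO Pool.Agent.U803.PC.t_INF
  have hMAINC := Pool.Agent.U610.PC.t_MAINC hDICH hPERTC Pool.Agent.U285.PC.t_RK2
    Pool.Agent.U603.PC.t_DIAG
  have h2 : ∀ Q : Set ℕ, Rich Q → ∀ (Φ : Formula ℚ) (Ψ : Quadratic) (b : ℚ),
      Φ.AdmissibleAt b → Ψ.AdmissibleAt b →
      (∀ a : ℚ, (Φ.Holds a b ∨ Ψ.Holds a b) → PoleRel ℚ Q a b) →
      ∃ (M : ℕ) (a₀ : ℤ) (Z : Set ℚ), 0 < M ∧ Thin Z ∧ ∀ u : ℤ, (M : ℤ) ∣ u - a₀ → (u : ℚ) ∉ Z →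
        PoleRel ℚ Q (u : ℚ) b ∧ ¬ (Φ.Holds (u : ℚ) b ∨ Ψ.Holds (u : ℚ) b) := by
    intro Q hQ Φ Ψ b hΦ hΨ hU
    have h1 : Thin {a | Φ.Holds a b} :=
      Pool.Agent.N455.PR.thin_main hQ hΦ.1.1 hΦ.1.2 b hΦ.2.1 hΦ.2.2 fun a ha => hU a (Or.inl ha)
    obtain ⟨Q', hQQ, hQ', hb⟩ := Pool.Agent.N455.PR.rich_sub hQ b
    obtain ⟨M, a₀, Z, hM, hZ, h⟩ := Pool.Agent.U610.PC.mixed hMAINC hQ' Ψ.c Ψ.r Ψ.f Ψ.B Ψ.e Ψ.t Ψ.F
      hΨ.1 b (fun i a w => Ψ.Witness i a b w) (fun _ _ _ => Iff.rfl) hΨ.2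
      (fun a i w hw p _ hp => Pool.Agent.U610.PC.norm_le_one_of_noPole hp
        (Pool.Agent.N455.PR.noPole_of hb (Pool.Agent.N455.PR.poleRel_mono hQQ
          (hU a (Or.inr ⟨i, w, hw⟩)))))
    refine ⟨M, a₀, {a | Φ.Holds a b} ∪ Z, hM, h1.union hZ, fun u hu hu' =>
      ⟨Pool.Agent.N455.PR.poleRel_int Q u b, ?_⟩⟩
    rintro (h3 | ⟨i, w, hw⟩)
    · exact hu' (Or.inl h3)
    · exact h u hu (fun h => hu' (Or.inr h)) i w hw
  have h3 : ∀ Q : Set ℕ, Rich Q → ∀ (Φ : Formula ℚ) (Ψ : Quadratic) (b : ℚ),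
      Φ.AdmissibleAt b → Ψ.AdmissibleAt b →
      (∀ a : ℚ, (Φ.Holds a b ∨ Ψ.Holds a b) → PoleRel ℚ Q a b) →
      ∀ B : ℤ, ∃ u : ℤ, B < u ∧
        PoleRel ℚ Q (u : ℚ) b ∧ ¬ (Φ.Holds (u : ℚ) b ∨ Ψ.Holds (u : ℚ) b) := by
    intro Q hQ Φ Ψ b hΦ hΨ hU B
    obtain ⟨M, a₀, Z, hM, hZ, h⟩ := h2 Q hQ Φ Ψ b hΦ hΨ hU
    obtain ⟨u, hu, hu1, hu2⟩ := Pool.Agent.U55.PC.t_APT Z hZ M a₀ hM B
    exact ⟨u, hu, h u hu1 hu2⟩
  refine ⟨?_, h2, h3, four⟩
  rintro Φ Ψ ⟨b, hb, hb'⟩ hiff
  obtain ⟨u, -, hu1, hu2⟩ := h3 {p | p % 4 = 1} four Φ Ψ b hb hb' (fun a ha => (hiff a b).1 ha) 0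
  exact hu2 ((hiff u b).2 hu1)

end Pool.Agent.Results.MP_a59382_lc.QuadraticWitnesses
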